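import Pool.Agent.TH181.LV.B

set_option autoImplicit false

namespace Pool.Agent.Results.MP_a93a41_nt.AlmostAllDilations

/-- Let `S` be a `1`-spaced family in `[0,T]`.  Outside a set of dilations `lam ∈ [1,2]` of measure at
most `36 (1 + log 2T) N^3 / V₀^4`, every `V ≥ V₀` and every Dirichlet polynomial of length `N` with
coefficients bounded by `1` that is at least `V` on `lam S` satisfy `|S| ≤ 60 (1 + log T) N^2 / V^2`. -/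
theorem result : ∀ (N : ℕ) (T V₀ : ℝ) (S : Finset ℝ), 1 ≤ N → 1 ≤ T → 0 < V₀ →
    (∀ t ∈ S, 0 ≤ t ∧ t ≤ T) → (∀ t ∈ S, ∀ s ∈ S, t ≠ s → 1 ≤ |t - s|) →
    MeasureTheory.volume {lam : ℝ | lam ∈ Set.Icc (1 : ℝ) 2 ∧ ∃ (V : ℝ) (a : ℕ → ℂ), V₀ ≤ V ∧
        (∀ n, ‖a n‖ ≤ 1) ∧
        (∀ t ∈ S, V ≤ ‖∑ n ∈ Finset.Icc 1 N, a n * (n : ℂ) ^ (-(((lam * t : ℝ) : ℂ) * Complex.I))‖) ∧
        60 * (1 + Real.log T) * (N : ℝ) ^ 2 / V ^ 2 < (S.card : ℝ)} ≤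
      ENNReal.ofReal (36 * (1 + Real.log (2 * T)) * (N : ℝ) ^ 3 / V₀ ^ 4) := by
  intro N T V₀ S hN hT hV₀ hS hsep
  have hN0 : (0 : ℝ) < N := by exact_mod_cast hN
  have hlog : 0 ≤ Real.log T := Real.log_nonneg hT
  rcases S.eq_empty_or_nonempty with hS0 | hS0
  · subst hS0
    have h1 : {lam : ℝ | lam ∈ Set.Icc (1 : ℝ) 2 ∧ ∃ (V : ℝ) (a : ℕ → ℂ), V₀ ≤ V ∧
        (∀ n, ‖a n‖ ≤ 1) ∧
        (∀ t ∈ (∅ : Finset ℝ), V ≤ ‖∑ n ∈ Finset.Icc 1 N, a n * (n : ℂ) ^ (-(((lam * t : ℝ) : ℂ) * Complex.I))‖) ∧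
        60 * (1 + Real.log T) * (N : ℝ) ^ 2 / V ^ 2 < ((∅ : Finset ℝ).card : ℝ)} = ∅ := by
      apply Set.eq_empty_of_forall_notMem
      rintro lam ⟨_, V, a, hV, _, _, h⟩
      rw [Finset.card_empty, Nat.cast_zero] at h
      have : 0 ≤ 60 * (1 + Real.log T) * (N : ℝ) ^ 2 / V ^ 2 := by positivity
      linarith
    rw [h1, MeasureTheory.measure_empty]
    exact zero_le
  have hR0 : (0 : ℝ) < (S.card : ℝ) := by exact_mod_cast hS0.card_pos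
  set ρ : ℝ := (S.card : ℝ) ^ 2 * V₀ ^ 4 / (4 * (N : ℝ) ^ 2) with hρ
  have hρ0 : 0 < ρ := by positivity
  have hmeas := Pool.Agent.TH181.LV.Z2_meas S N T ρ hN hT hρ0 hS hsep
  have he : (S.card : ℝ) ^ 2 * (9 * N * (1 + Real.log (2 * T))) / ρ =
      36 * (1 + Real.log (2 * T)) * (N : ℝ) ^ 3 / V₀ ^ 4 := by
    rw [hρ]
    field_simp
    ring
  rw [he] at hmeas
  refine le_trans (MeasureTheory.measure_mono ?_) hmeas
  rintro lam ⟨hl, V, a, hV, ha, hD, hcard⟩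
  refine ⟨hl, ?_⟩
  by_contra hcon
  rw [not_le] at hcon
  have hV0 : 0 < V := by linarith
  have hlarge := Pool.Agent.TH181.LV.large S N T lam hT hl.1 hl.2 hS hsep a ha
  have hD' : ∀ t ∈ S, V ^ 2 ≤ ‖∑ n ∈ Finset.Icc 1 N, a n * Pool.Agent.TH181.LV.E (-(lam * t) * Real.log n)‖ ^ 2 := by
    intro t ht
    have h1 := hD t ht
    have h2 : ∑ n ∈ Finset.Icc 1 N, a n * (n : ℂ) ^ (-(((lam * t : ℝ) : ℂ) * Complex.I)) =
        ∑ n ∈ Finset.Icc 1 N, a n * Pool.Agent.TH181.LV.E (-(lam * t) * Real.log n) := by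
      apply Finset.sum_congr rfl
      intro n hn
      rw [Finset.mem_Icc] at hn
      rw [Pool.Agent.TH181.LV.cpow_E n hn.1 (lam * t)]
    rw [h2] at h1
    exact pow_le_pow_left₀ hV0.le h1 2
  have h1 : (S.card : ℝ) * V ^ 2 ≤
      (N : ℝ) ^ 2 * (1 + 8 * Real.pi * (1 + Real.log T)) + N * √(Pool.Agent.TH181.LV.Z2 S N lam) := by
    refine le_trans ?_ hlarge
    rw [← nsmul_eq_mul]
    exact Finset.card_nsmul_le_sum _ _ _ hD'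
  have h2 : √(Pool.Agent.TH181.LV.Z2 S N lam) ≤ (S.card : ℝ) * V ^ 2 / (2 * N) := by
    rw [Real.sqrt_le_left (by positivity)]
    refine hcon.le.trans ?_
    rw [hρ, div_pow, div_le_div_iff₀ (by positivity) (by positivity)]
    have h3 : V₀ ^ 4 ≤ V ^ 4 := pow_le_pow_left₀ hV₀.le hV 4
    have h4 : (S.card : ℝ) ^ 2 * V₀ ^ 4 ≤ (S.card : ℝ) ^ 2 * V ^ 4 := mul_le_mul_of_nonneg_left h3 (by positivity)
    calc (S.card : ℝ) ^ 2 * V₀ ^ 4 * (2 * (N : ℝ)) ^ 2 ≤ (S.card : ℝ) ^ 2 * V ^ 4 * (2 * (N : ℝ)) ^ 2 :=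
          mul_le_mul_of_nonneg_right h4 (by positivity)
      _ = ((S.card : ℝ) * V ^ 2) ^ 2 * (4 * (N : ℝ) ^ 2) := by ring
  have h3 : (N : ℝ) * √(Pool.Agent.TH181.LV.Z2 S N lam) ≤ (S.card : ℝ) * V ^ 2 / 2 := by
    have h4 := mul_le_mul_of_nonneg_left h2 hN0.le
    have h5 : (N : ℝ) * ((S.card : ℝ) * V ^ 2 / (2 * N)) = (S.card : ℝ) * V ^ 2 / 2 := by
      field_simp
    rw [h5] at h4
    exact h4
  have h4 : (S.card : ℝ) * V ^ 2 ≤ 2 * ((N : ℝ) ^ 2 * (1 + 8 * Real.pi * (1 + Real.log T))) := by linarith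
  rw [div_lt_iff₀ (by positivity)] at hcard
  have hpi := Real.pi_lt_d2
  have h5 : 2 * (1 + 8 * Real.pi * (1 + Real.log T)) ≤ 60 * (1 + Real.log T) := by nlinarith
  have h6 : 2 * ((N : ℝ) ^ 2 * (1 + 8 * Real.pi * (1 + Real.log T))) ≤ 60 * (1 + Real.log T) * (N : ℝ) ^ 2 := by
    have := mul_le_mul_of_nonneg_right h5 (by positivity : (0 : ℝ) ≤ (N : ℝ) ^ 2)
    linarith
  linarith

end Pool.Agent.Results.MP_a93a41_nt.AlmostAllDilations
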