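import Pool.Agent.TH804.GX2

/-!
# Large values of Dirichlet polynomials: `ℓ²` inequalities off few integers

The natural `ℓ²` form of the conjecture (Q1 for all coefficients, with `∑ |a_n|²` for `N`) is false (Bourgain).  Here:
Q1 is equivalent to the mean square bound `∑_{t ∈ S} |D(it)|² ≤ C N² T^ε` for `1`-spaced sets `S` of at most `N` points
(1), to an `ℓ²` inequality for all complex coefficients with weights of mean value `1` depending on `S` (2), to Q1 for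
coefficients in Hilbert spaces (3) and, for `N ≤ T^A`, to the `ℓ²` inequality
`∑_{t ∈ S} |D(it)|² ≤ C K N T^ε ∑ |a_n|²` for all `K ≥ 1` and all complex coefficients which vanish on a set `B` of at
most `N / K` integers, which depends on `N`, `S`, `K` (4).  The set `B` must depend on `S`: for each set `B` of at most
`N / 32` integers there are `S ⊂ [0, N²]`, `|S| ≤ N` and `a` vanishing on `B` for which
`∑_{t ∈ S} |D(it)|² ≫ N^(4/3) ∑ |a_n|²` (5).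

The proof uses the little Grothendieck theorem and Pietsch's factorization theorem; see
`MP_71ac24_nt/HilbertianForm`, where the same is done for the form of the conjecture in that problem (`T ≤ N²`, mean
squares).
-/

set_option autoImplicit false

open Finset

namespace Pool.Agent.Results.MP_a93a41_nt.ExceptionalIntegers

/-- `D(it) = ∑_{n ≤ N} a_n n^{-it}` -/
noncomputable def D (N : ℕ) (a : ℕ → ℂ) (t : ℝ) : ℂ :=
  ∑ n ∈ Icc 1 N, a n * (n : ℂ) ^ (-((t : ℂ) * Complex.I))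

/-- `D(it) = ∑_{n ≤ N} n^{-it} a_n` for coefficients in `ℂ^k` with the Euclidean norm -/
noncomputable def vectorD (N : ℕ) {k : ℕ} (a : ℕ → EuclideanSpace ℂ (Fin k)) (t : ℝ) : EuclideanSpace ℂ (Fin k) :=
  ∑ n ∈ Icc 1 N, (n : ℂ) ^ (-((t : ℂ) * Complex.I)) • a n

/-- `S` is a `1`-spaced subset of `[0, T]` -/
def Spaced (T : ℝ) (S : Finset ℝ) : Prop :=
  (∀ t ∈ S, 0 ≤ t ∧ t ≤ T) ∧ ∀ t ∈ S, ∀ u ∈ S, t ≠ u → 1 ≤ |t - u|

/-- Q1 of the problem, for the pairs `N`, `T` with `R N T` -/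
def LargeValues (R : ℕ → ℝ → Prop) : Prop := ∀ ε : ℝ, 0 < ε → ∃ C : ℝ, 0 < C ∧
  ∀ (N : ℕ) (T V : ℝ) (a : ℕ → ℂ) (S : Finset ℝ), 1 ≤ N → 1 ≤ T → R N T → 0 < V → (∀ n, ‖a n‖ ≤ 1) →
    (N : ℝ) * T ^ ε ≤ V ^ 2 → Spaced T S → (∀ t ∈ S, V ≤ ‖D N a t‖) →
      (S.card : ℝ) ≤ C * (N : ℝ) ^ 2 / V ^ 2 * T ^ ε

/-- Q1 of the problem -/
def Q1 : Prop := LargeValues fun _ _ => True

/-- the mean square over at most `N` points -/
def MeanSquare : Prop := ∀ ε : ℝ, 0 < ε → ∃ C : ℝ, 0 < C ∧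
  ∀ (N : ℕ) (T : ℝ) (S : Finset ℝ), 1 ≤ N → 1 ≤ T → Spaced T S → S.card ≤ N → ∀ a : ℕ → ℂ, (∀ n, ‖a n‖ ≤ 1) →
    ∑ t ∈ S, ‖D N a t‖ ^ 2 ≤ C * (N : ℝ) ^ 2 * T ^ ε

/-- the weighted form, for all complex coefficients; the weights depend on `N` and `S` -/
def WeightedForm : Prop := ∀ ε : ℝ, 0 < ε → ∃ C : ℝ, 0 < C ∧
  ∀ (N : ℕ) (T : ℝ) (S : Finset ℝ), 1 ≤ N → 1 ≤ T → Spaced T S → S.card ≤ N →
    ∃ w : ℕ → ℝ, (∀ n, 0 ≤ w n) ∧ ∑ n ∈ Icc 1 N, w n = N ∧ ∀ a : ℕ → ℂ,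
      ∑ t ∈ S, ‖D N a t‖ ^ 2 ≤ C * N * T ^ ε * ∑ n ∈ Icc 1 N, w n * ‖a n‖ ^ 2

/-- Q1 for coefficients in finite dimensional Hilbert spaces, with constants independent of the dimension -/
def VectorForm : Prop := ∀ ε : ℝ, 0 < ε → ∃ C : ℝ, 0 < C ∧
  ∀ (N : ℕ) (T V : ℝ) (k : ℕ) (a : ℕ → EuclideanSpace ℂ (Fin k)) (S : Finset ℝ), 1 ≤ N → 1 ≤ T → 0 < V →
    (∀ n, ‖a n‖ ≤ 1) → (N : ℝ) * T ^ ε ≤ V ^ 2 → Spaced T S → (∀ t ∈ S, V ≤ ‖vectorD N a t‖) →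
      (S.card : ℝ) ≤ C * (N : ℝ) ^ 2 / V ^ 2 * T ^ ε

/-- for the pairs `N`, `T` with `R N T`: the `ℓ²` form for all complex coefficients which vanish on a set `B` of at
most `N / K` integers, with the loss of a factor `K`; the set `B` depends on `N`, `S` and `K` -/
def ExceptionalForm (R : ℕ → ℝ → Prop) : Prop := ∀ ε : ℝ, 0 < ε → ∃ C : ℝ, 0 < C ∧
  ∀ (N : ℕ) (T : ℝ) (S : Finset ℝ), 1 ≤ N → 1 ≤ T → R N T → Spaced T S → S.card ≤ N → ∀ K : ℝ, 1 ≤ K →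
    ∃ B : Finset ℕ, B ⊆ Icc 1 N ∧ K * B.card ≤ N ∧ ∀ a : ℕ → ℂ, (∀ n ∈ B, a n = 0) →
      ∑ t ∈ S, ‖D N a t‖ ^ 2 ≤ C * K * N * T ^ ε * ∑ n ∈ Icc 1 N, ‖a n‖ ^ 2

open Pool.Agent.TH804.GX in
theorem result :
    -- (1), (2), (3)
    (Q1 ↔ MeanSquare) ∧ (Q1 ↔ WeightedForm) ∧ (Q1 ↔ VectorForm) ∧
    -- (4)
    (∀ A : ℝ, 0 ≤ A →
      (LargeValues (fun N T => (N : ℝ) ≤ T ^ A) ↔ ExceptionalForm fun N T => (N : ℝ) ≤ T ^ A)) ∧
    -- (5)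
    (∃ c : ℝ, 0 < c ∧ ∃ N₀ : ℕ, ∀ N : ℕ, N₀ ≤ N → ∀ B : Finset ℕ, B ⊆ Icc 1 N → 32 * B.card ≤ N →
      ∃ S : Finset ℝ, Spaced ((N : ℝ) ^ 2) S ∧ S.card ≤ N ∧ ∃ a : ℕ → ℂ, (∀ n, ‖a n‖ ≤ 1) ∧ (∀ n ∈ B, a n = 0) ∧
        0 < ∑ t ∈ S, ‖D N a t‖ ^ 2 ∧
        c * (N : ℝ) ^ (1 / 3 : ℝ) * (N : ℝ) * ∑ n ∈ Icc 1 N, ‖a n‖ ^ 2 ≤ ∑ t ∈ S, ‖D N a t‖ ^ 2) := by
  have e1 : ∀ R : ℕ → ℝ → Prop, LargeValues R ↔ LV R := fun R => Iff.rfl
  have e2 : MeanSquare ↔ MS fun _ _ => True := by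
    constructor
    · intro h ε hε
      obtain ⟨C, hC, h1⟩ := h ε hε
      exact ⟨C, hC, fun N T S hN hT _ hS hc a ha => h1 N T S hN hT hS hc a ha⟩
    · intro h ε hε
      obtain ⟨C, hC, h1⟩ := h ε hε
      exact ⟨C, hC, fun N T S hN hT hS hc a ha => h1 N T S hN hT trivial hS hc a ha⟩
  have e3 : WeightedForm ↔ WS fun _ _ => True := by
    constructor
    · intro h ε hε
      obtain ⟨C, hC, h1⟩ := h ε hε
      exact ⟨C, hC, fun N T S hN hT _ hS hc => h1 N T S hN hT hS hc⟩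
    · intro h ε hε
      obtain ⟨C, hC, h1⟩ := h ε hε
      exact ⟨C, hC, fun N T S hN hT hS hc => h1 N T S hN hT trivial hS hc⟩
  have e4 : VectorForm ↔ VS fun _ _ => True := by
    constructor
    · intro h ε hε
      obtain ⟨C, hC, h1⟩ := h ε hε
      exact ⟨C, hC, fun N T V k a S hN hT _ hV => h1 N T V k a S hN hT hV⟩
    · intro h ε hε
      obtain ⟨C, hC, h1⟩ := h ε hε
      exact ⟨C, hC, fun N T V k a S hN hT hV => h1 N T V k a S hN hT trivial hV⟩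
  refine ⟨?_, ?_, ?_, ?_, ?_⟩
  · rw [e2]
    exact ⟨fun h => MS_of_LV ((e1 _).1 h), fun h => (e1 _).2 (LV_of_MS h)⟩
  · rw [e3]
    exact ⟨fun h => WS_of_MS (MS_of_LV ((e1 _).1 h)), fun h => (e1 _).2 (LV_of_VS (VS_of_WS h))⟩
  · rw [e4]
    exact ⟨fun h => VS_of_WS (WS_of_MS (MS_of_LV ((e1 _).1 h))), fun h => (e1 _).2 (LV_of_VS h)⟩
  · intro A hA
    exact ⟨fun h => ES_of_WS (WS_of_MS (MS_of_LV ((e1 _).1 h))), fun h => (e1 _).2 (LV_of_MS (MS_of_ES hA h))⟩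
  · obtain ⟨c, hc, N₀, h⟩ := no_exceptional'
    exact ⟨c, hc, N₀, h⟩

end Pool.Agent.Results.MP_a93a41_nt.ExceptionalIntegers
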