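import Pool.Agent.TH961.AP.Gen3

set_option autoImplicit false

/-!
Large values of Dirichlet polynomials on generic dilates of sets of large additive energy.

For a finite set `S` of integers with `|S|³ ≤ K E(S)` (`E` the additive energy) and all `λ` in
`[Λ, 2Λ]` outside one set `E` of measure at most `ηΛ`: for all `|a_n| ≤ 1`, all `t₀` and all
`V` with `2^45 K^20 N ≤ η V²`, if `|∑_{n ≤ N} a_n n^{-i(t₀+λs)}| ≥ V` for all `s ∈ S`, then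
`|S| ≤ 2^34 K^11 η⁻¹ N² V⁻² (1 + log (K|S|)) (1 + log N)`.
-/

namespace Pool.Agent.Results.MP_a93a41_nt.LargeEnergyDilates

open MeasureTheory

theorem pull (I : Set ℝ) (P : ℝ → Prop) (c : ENNReal) (h : volume {x | x ∈ I ∧ ¬ P x} ≤ c) :
    ∃ E : Set ℝ, MeasurableSet E ∧ volume E ≤ c ∧ ∀ x ∈ I, x ∉ E → P x := by
  refine ⟨toMeasurable volume {x | x ∈ I ∧ ¬ P x}, measurableSet_toMeasurable _ _, ?_, ?_⟩
  · rw [measure_toMeasurable]
    exact h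
  · intro x hx hxE
    by_contra hP
    exact hxE (subset_toMeasurable volume _ ⟨hx, hP⟩)

theorem result (N : ℕ) (hN : 1 ≤ N) (S : Finset ℤ) (K Λ η : ℝ) (hK : 1 ≤ K) (hΛ : 1 ≤ Λ)
    (hη : 0 < η) (hE : (S.card : ℝ) ^ 3 ≤ K * (S.addEnergy S : ℕ)) :
    ∃ E : Set ℝ, MeasurableSet E ∧ volume E ≤ ENNReal.ofReal (η * Λ) ∧
      ∀ x ∈ Set.Icc Λ (2 * Λ), x ∉ E →
        ∀ (a : ℕ → ℂ) (t₀ V : ℝ), (∀ n, ‖a n‖ ≤ 1) → 0 < V →
          2 ^ 45 * K ^ 20 * N ≤ η * V ^ 2 →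
          (∀ s ∈ S, V ≤ ‖∑ n ∈ Finset.Icc 1 N,
            a n * (n : ℂ) ^ (-(((t₀ + x * s : ℝ) : ℂ) * Complex.I))‖) →
          (S.card : ℝ) ≤ 2 ^ 34 * K ^ 11 / η * ((N : ℝ) ^ 2 / V ^ 2) *
            (1 + Real.log (K * S.card)) * (1 + Real.log N) := by
  exact pull _ _ _ (Pool.Agent.TH961.AP.large_energy N hN S K Λ η hK hΛ hη hE)

end Pool.Agent.Results.MP_a93a41_nt.LargeEnergyDilates
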