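import Mathlib
import Pool.Agent.TH705.DL.RandD

/-!
# Large values of Dirichlet polynomials with generic integer frequencies

Cut `[1, N H]` into `N` blocks of `H` consecutive integers and choose one integer
`n_j = j H + x_j + 1` in each block, so that `n_j / H` is the point `j` moved inside its unit
interval.  For all but a proportion `δ` of the `H ^ N` choices, ALL Dirichlet polynomials
`D(t) = ∑_j a_j n_j ^ (-i t)` with `|a_j| ≤ 1` satisfy the large values bound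
`R ≤ 6144 N ^ 2 L ^ 3 / V ^ 2`, `L = 1 + log (N H / δ)`, for all `1`-separated families of `R`
points in `[0, T]`, `T ≤ N H`, as soon as `V ^ 3 ≥ 10 ^ 6 N ^ 2 L ^ 6`.
-/

set_option autoImplicit false

namespace Pool.Agent.Results.MP_a93a41_nt.RandomFrequencies

open Finset

theorem result (N H : ℕ) (hN : 1 ≤ N) (hH : 1 ≤ H) (T δ : ℝ) (hT : 0 ≤ T)
    (hTN : T ≤ N * H) (hδ : 0 < δ) (hδ1 : δ ≤ 1) :
    ({x : Fin N → Fin H | ¬ ∀ (a : Fin N → ℂ) (V : ℝ) (S : Finset ℝ),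
      (∀ j, ‖a j‖ ≤ 1) → 0 < V → (∀ t ∈ S, 0 ≤ t ∧ t ≤ T) →
      (∀ t ∈ S, ∀ u ∈ S, t ≠ u → 1 ≤ |t - u|) →
      (∀ t ∈ S, V ≤ ‖∑ j, a j *
        (((j:ℕ) * H + (x j : ℕ) + 1 : ℕ) : ℂ) ^ (-((t : ℂ) * Complex.I))‖) →
      10 ^ 6 * N ^ 2 * (1 + Real.log (N * H / δ)) ^ 6 ≤ V ^ 3 →
      (S.card : ℝ) ≤ 6144 * N ^ 2 * (1 + Real.log (N * H / δ)) ^ 3 / V ^ 2}.ncard : ℝ) ≤
      δ * (H : ℝ) ^ N := by
  classical
  refine le_trans (le_of_eq ?_) (Pool.Agent.TH705.DL.Rnd.main hN hH T δ hT hTN hδ hδ1)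
  rw [Set.ncard_eq_toFinset_card']
  congr 2
  ext x
  simp only [Set.mem_toFinset, Set.mem_ofPred_eq, mem_filter, mem_univ, true_and]

end Pool.Agent.Results.MP_a93a41_nt.RandomFrequencies
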